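import Pool.Agent.Helper50.GP.St

/-!
Project GP (MP_b3ce06_al), MODULE TSI: a group `T` with two generators of coprime odd orders and the
simple group `S` as an image of a normal subgroup.
-/

set_option autoImplicit false

namespace Pool.Agent.Helper10.GP

open Pool.Agent.Helper50.GP

/-- an odd prime divides the order of a non-abelian finite simple group -/
private theorem odd_prime (S : Type) [Group S] [Finite S] [IsSimpleGroup S]
    (hab : ∃ a b : S, a * b ≠ b * a) : ∃ l : ℕ, l.Prime ∧ l ≠ 2 ∧ l ∣ Nat.card S := by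
  by_contra hno
  push Not at hno
  have h1 : Nat.card S = 2 ^ (Nat.card S).primeFactorsList.length :=
    Nat.eq_prime_pow_of_unique_prime_dvd Nat.card_pos.ne' (fun {d} hd hdv => by
      by_contra hne
      exact hno d hd hne hdv)
  have : Fact (Nat.Prime 2) := ⟨Nat.prime_two⟩
  have h2 : IsPGroup 2 S := IsPGroup.of_card h1
  have : Nontrivial S := IsSimpleGroup.toNontrivial
  have h3 : Nontrivial (Subgroup.center S) := h2.center_nontrivial
  have h4 : Subgroup.center S ≠ ⊥ := (Subgroup.nontrivial_iff_ne_bot _).1 h3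
  have h5 : Subgroup.center S = ⊤ :=
    (Subgroup.Normal.eq_bot_or_eq_top (H := Subgroup.center S) inferInstance).resolve_left h4
  obtain ⟨a, b, hne⟩ := hab
  have h6 : b ∈ Subgroup.center S := by rw [h5]; exact Subgroup.mem_top b
  exact hne (Subgroup.mem_center_iff.1 h6 a)

/-- the elements of order `l` generate `S` -/
private theorem gen_order (S : Type) [Group S] [Finite S] [IsSimpleGroup S] (l : ℕ)
    (hl : l.Prime) (hdv : l ∣ Nat.card S) :
    Subgroup.closure {a : S | orderOf a = l} = (⊤ : Subgroup S) := by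
  have : Fact l.Prime := ⟨hl⟩
  obtain ⟨a, ha⟩ := exists_prime_orderOf_dvd_card' (G := S) l hdv
  have h1 : Group.conjugatesOfSet {a : S | orderOf a = l} = {a : S | orderOf a = l} := by
    apply Set.Subset.antisymm
    · intro x hx
      rw [Group.mem_conjugatesOfSet_iff] at hx
      obtain ⟨y, hy, hc⟩ := hx
      rw [isConj_iff] at hc
      obtain ⟨c, rfl⟩ := hc
      have h2 : orderOf (c * y * c⁻¹) = orderOf y := by
        have := orderOf_injective (MulAut.conj c).toMonoidHom (MulAut.conj c).injective y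
        simpa [MulAut.conj_apply] using this
      exact h2.trans hy
    · exact Group.subset_conjugatesOfSet
  have h2 : Subgroup.normalClosure {a : S | orderOf a = l} =
      Subgroup.closure {a : S | orderOf a = l} := by
    unfold Subgroup.normalClosure
    rw [h1]
  have h3 : (Subgroup.closure {a : S | orderOf a = l}).Normal := by
    rw [← h2]
    exact Subgroup.normalClosure_normal
  refine (Subgroup.Normal.eq_bot_or_eq_top h3).resolve_left ?_
  intro h4
  have h5 : a ∈ Subgroup.closure {a : S | orderOf a = l} := Subgroup.subset_closure ha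
  rw [h4, Subgroup.mem_bot] at h5
  rw [h5, orderOf_one] at ha
  exact hl.one_lt.ne ha

section

variable {S : Type} [Group S] {q : ℕ}

/-- multiplication in the second coordinate -/
private def mu : (ZMod q → S) →* Equiv.Perm (ZMod q × S) where
  toFun f :=
    { toFun := fun x => (x.1, f x.1 * x.2)
      invFun := fun x => (x.1, (f x.1)⁻¹ * x.2)
      left_inv := fun x => by simp
      right_inv := fun x => by simp }
  map_one' := by ext x <;> simp
  map_mul' f g := by ext x <;> simp [mul_assoc]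

private theorem mu_apply (f : ZMod q → S) (x : ZMod q × S) : mu f x = (x.1, f x.1 * x.2) := rfl

/-- the shift -/
private def sh (S : Type) (q : ℕ) : Equiv.Perm (ZMod q × S) where
  toFun := fun x => (x.1 + 1, x.2)
  invFun := fun x => (x.1 - 1, x.2)
  left_inv := fun x => by simp
  right_inv := fun x => by simp

private theorem sh_pow (S : Type) (q : ℕ) (i : ℕ) (x : ZMod q × S) :
    (sh S q ^ i) x = (x.1 + i, x.2) := by
  induction i with
  | zero => simp
  | succ i ih =>
    rw [pow_succ', Equiv.Perm.mul_apply, ih]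
    show (x.1 + (i : ZMod q) + 1, x.2) = _
    push_cast
    rw [add_assoc]

private theorem sh_conj (f : ZMod q → S) (i : ℕ) :
    (sh S q ^ i)⁻¹ * mu f * sh S q ^ i = mu (fun j : ZMod q => f (j + (i : ZMod q))) := by
  rw [mul_assoc, inv_mul_eq_iff_eq_mul]
  refine Equiv.ext fun x => ?_
  rw [Equiv.Perm.mul_apply, Equiv.Perm.mul_apply, sh_pow, mu_apply, mu_apply, sh_pow]

end

/-- conjugates of `α` by powers of `β` -/
private theorem normal_cl {T : Type} [Group T] (α β : T) (q : ℕ) (hq : 1 ≤ q) (hβ : β ^ q = 1)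
    (hcl : Subgroup.closure {α, β} = (⊤ : Subgroup T)) :
    (Subgroup.closure (Set.range (fun i : ℕ => (β ^ i)⁻¹ * α * β ^ i))).Normal := by
  set A := Subgroup.closure (Set.range (fun i : ℕ => (β ^ i)⁻¹ * α * β ^ i)) with hA
  have hmem : ∀ i : ℕ, (β ^ i)⁻¹ * α * β ^ i ∈ A := fun i =>
    Subgroup.subset_closure (Set.mem_range_self i)
  have h1 : ∀ x ∈ A, β * x * β⁻¹ ∈ A := by
    have h : A ≤ A.comap (MulAut.conj β).toMonoidHom := by
      rw [hA, Subgroup.closure_le]
      rintro _ ⟨i, rfl⟩
      show β * ((β ^ i)⁻¹ * α * β ^ i) * β⁻¹ ∈ A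
      rcases i with _ | i
      · have h2 : β * ((β ^ 0)⁻¹ * α * β ^ 0) * β⁻¹ = (β ^ (q - 1))⁻¹ * α * β ^ (q - 1) := by
          have h3 : β ^ (q - 1) = β⁻¹ := by
            rw [eq_inv_iff_mul_eq_one, ← pow_succ, Nat.sub_add_cancel hq, hβ]
          rw [h3]
          simp
        rw [h2]
        exact hmem _
      · have h2 : β * ((β ^ (i + 1))⁻¹ * α * β ^ (i + 1)) * β⁻¹ = (β ^ i)⁻¹ * α * β ^ i := by
          rw [pow_succ]
          group
        rw [h2]
        exact hmem _
    intro x hx
    exact h hx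
  have h2 : ∀ x ∈ A, β⁻¹ * x * β ∈ A := by
    have h : A ≤ A.comap (MulAut.conj β⁻¹).toMonoidHom := by
      rw [hA, Subgroup.closure_le]
      rintro _ ⟨i, rfl⟩
      show β⁻¹ * ((β ^ i)⁻¹ * α * β ^ i) * β⁻¹⁻¹ ∈ A
      have h2 : β⁻¹ * ((β ^ i)⁻¹ * α * β ^ i) * β⁻¹⁻¹ = (β ^ (i + 1))⁻¹ * α * β ^ (i + 1) := by
        rw [pow_succ]
        group
      rw [h2]
      exact hmem _
    intro x hx
    have h3 : β⁻¹ * x * β⁻¹⁻¹ ∈ A := h hx
    rwa [inv_inv] at h3
  rw [← Subgroup.normalizer_eq_top_iff, eq_top_iff, ← hcl, Subgroup.closure_le]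
  intro t ht
  rcases ht with rfl | ht
  · have h3 : t ∈ A := by
      have := hmem 0
      simpa using this
    exact Subgroup.le_normalizer h3
  · rw [Set.mem_singleton_iff] at ht
    subst ht
    rw [SetLike.mem_coe, Subgroup.mem_normalizer_iff]
    intro x
    constructor
    · exact h1 x
    · intro hx
      have h3 := h2 _ hx
      have h4 : t⁻¹ * (t * x * t⁻¹) * t = x := by group
      rwa [h4] at h3

theorem hTSI : StTSI := by
  intro S _ _ _ hab
  classical
  obtain ⟨l, hl, hl2, hdv⟩ := odd_prime S hab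
  have hgen := gen_order S l hl hdv
  obtain ⟨q, hqb, hq⟩ := Nat.exists_infinite_primes (Nat.card S + l + 1)
  have : Fact q.Prime := ⟨hq⟩
  have : NeZero q := ⟨hq.ne_zero⟩
  have hlq : l < q := by omega
  have hnq : Nat.card S < q := by omega
  have hl3 : 3 ≤ l := by
    have := hl.two_le
    omega
  let e : S ≃ Fin (Nat.card S) := Finite.equivFin S
  let f0 : ZMod q → S := fun i => if h : i.val < Nat.card S then
    (if orderOf (e.symm ⟨i.val, h⟩) = l then e.symm ⟨i.val, h⟩ else 1) else 1
  have hf0 : ∀ i, f0 i ^ l = 1 := by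
    intro i
    show (if h : i.val < Nat.card S then
      (if orderOf (e.symm ⟨i.val, h⟩) = l then e.symm ⟨i.val, h⟩ else 1) else 1 : S) ^ l = 1
    split_ifs with h1 h2
    · rw [← h2, pow_orderOf_eq_one]
    · exact one_pow l
    · exact one_pow l
  have hf1 : ∀ a : S, orderOf a = l → f0 (((e a).val : ℕ) : ZMod q) = a := by
    intro a ha
    have h1 : (((e a).val : ℕ) : ZMod q).val = (e a).val :=
      ZMod.val_cast_of_lt ((e a).2.trans hnq)
    have h2 : (((e a).val : ℕ) : ZMod q).val < Nat.card S := by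
      rw [h1]
      exact (e a).2
    have h3 : e.symm ⟨(((e a).val : ℕ) : ZMod q).val, h2⟩ = a := by
      rw [Equiv.symm_apply_eq]
      exact Fin.ext h1
    show (if h : (((e a).val : ℕ) : ZMod q).val < Nat.card S then
      (if orderOf (e.symm ⟨(((e a).val : ℕ) : ZMod q).val, h⟩) = l then
        e.symm ⟨(((e a).val : ℕ) : ZMod q).val, h⟩ else 1) else 1 : S) = a
    rw [dif_pos h2, h3, if_pos ha]
  let α' : Equiv.Perm (ZMod q × S) := mu f0
  let β' : Equiv.Perm (ZMod q × S) := sh S q
  let T : Subgroup (Equiv.Perm (ZMod q × S)) := Subgroup.closure {α', β'}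
  have hαT : α' ∈ T := Subgroup.subset_closure (by simp)
  have hβT : β' ∈ T := Subgroup.subset_closure (by simp)
  let α : T := ⟨α', hαT⟩
  let β : T := ⟨β', hβT⟩
  have hα : α ^ l = 1 := by
    apply Subtype.ext
    show α' ^ l = 1
    have h1 : (f0 : ZMod q → S) ^ l = 1 := by
      funext i
      exact hf0 i
    show (mu f0) ^ l = 1
    rw [← map_pow, h1, map_one]
  have hβ : β ^ q = 1 := by
    apply Subtype.ext
    show sh S q ^ q = 1
    refine Equiv.ext fun x => ?_
    rw [sh_pow]
    simp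
  have hcl : Subgroup.closure {α, β} = (⊤ : Subgroup T) := by
    have h1 := Subgroup.closure_closure_coe_preimage (k := ({α', β'} : Set (Equiv.Perm (ZMod q × S))))
    rw [← h1]
    congr 1
    ext x
    simp only [Set.mem_insert_iff, Set.mem_singleton_iff, Set.mem_preimage]
    constructor
    · rintro (rfl | rfl)
      · exact Or.inl rfl
      · exact Or.inr rfl
    · rintro (h | h)
      · exact Or.inl (Subtype.ext h)
      · exact Or.inr (Subtype.ext h)
  have hnorm := normal_cl α β q hq.one_lt.le hβ hcl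
  have hmu : ∀ i : ℕ, (((β ^ i)⁻¹ * α * β ^ i : T) : Equiv.Perm (ZMod q × S)) =
      mu (fun j : ZMod q => f0 (j + (i : ZMod q))) := by
    intro i
    rw [← sh_conj]
    rfl
  have hrange : ∀ a ∈ Subgroup.closure (Set.range (fun i : ℕ => (β ^ i)⁻¹ * α * β ^ i)),
      ∃ f : ZMod q → S, mu f = (a : Equiv.Perm (ZMod q × S)) := by
    have h : Subgroup.closure (Set.range (fun i : ℕ => (β ^ i)⁻¹ * α * β ^ i)) ≤
        ((mu (S := S) (q := q)).range).comap T.subtype := by
      rw [Subgroup.closure_le]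
      rintro _ ⟨i, rfl⟩
      exact ⟨_, (hmu i).symm⟩
    intro a ha
    exact h ha
  refine ⟨T, inferInstance, inferInstance, α, β, l, q, hl.odd_of_ne_two hl2,
    hq.odd_of_ne_two (by omega), (Nat.coprime_primes hl hq).2 hlq.ne, hα, hβ, hcl, hnorm, ?_⟩
  let h : Subgroup.closure (Set.range (fun i : ℕ => (β ^ i)⁻¹ * α * β ^ i)) →* S :=
    MonoidHom.mk' (fun a => (((a : T) : Equiv.Perm (ZMod q × S)) (0, 1)).2) (by
      intro a b
      obtain ⟨f, hf⟩ := hrange _ a.2
      obtain ⟨g, hg⟩ := hrange _ b.2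
      show ((((a : T) : Equiv.Perm (ZMod q × S)) * ((b : T) : Equiv.Perm (ZMod q × S))) (0, 1)).2 =
        (((a : T) : Equiv.Perm (ZMod q × S)) (0, 1)).2 *
        (((b : T) : Equiv.Perm (ZMod q × S)) (0, 1)).2
      rw [← hf, ← hg, Equiv.Perm.mul_apply, mu_apply, mu_apply, mu_apply]
      simp)
  refine ⟨h, ?_⟩
  rw [← MonoidHom.range_eq_top, eq_top_iff, ← hgen, Subgroup.closure_le]
  intro a ha
  refine ⟨⟨(β ^ (e a).val)⁻¹ * α * β ^ (e a).val,
    Subgroup.subset_closure (Set.mem_range_self _)⟩, ?_⟩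
  show ((((β ^ (e a).val)⁻¹ * α * β ^ (e a).val : T) : Equiv.Perm (ZMod q × S)) (0, 1)).2 = a
  rw [hmu, mu_apply]
  show f0 (0 + (((e a).val : ℕ) : ZMod q)) * 1 = a
  rw [zero_add, mul_one]
  exact hf1 a ha

end Pool.Agent.Helper10.GP
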